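import Pool.Agent.H97.PRK.Targets

/-!
# MP_e37c09_lc, row CNA of prk_modules: the second embedding
-/

open Ordinal Cardinal Order Set
open scoped ZFSet

universe u

namespace Pool.Agent.H26.PRK

open _root_.HD HD.PRK

/-- unboundedly many splitting points, as a predicate of sets -/
def CNA_UU (m r F l : ZFSet.{u}) : Prop :=
  m.IsOrdinal ∧ r.IsOrdinal ∧ l.IsOrdinal ∧
    ∀ z < l.rank, ∃ i, z < i ∧ i < l.rank ∧ Spl m.rank r.rank F i

/-- few splitting points, as a predicate of sets -/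
def CNA_WW (m r F l d : ZFSet.{u}) : Prop :=
  m.IsOrdinal ∧ r.IsOrdinal ∧ l.IsOrdinal ∧ d.IsOrdinal ∧
    Few d.rank {i | i < l.rank ∧ Spl m.rank r.rank F i}

theorem CNA_locUU (h : T_LUN.{u}) (a b c d : ℕ) :
    Loc.{u} fun v => CNA_UU (v a) (v b) (v c) (v d) :=
  Loc.ren (P := fun v => (v 0).IsOrdinal ∧ (v 1).IsOrdinal ∧ (v 3).IsOrdinal ∧
    ∀ z < (v 3).rank, ∃ i, z < i ∧ i < (v 3).rank ∧ Spl (v 0).rank (v 1).rank (v 2) i) h
    (fun n => if n = 0 then a else if n = 1 then b else if n = 2 then c else d)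

theorem CNA_locWW (h : T_LFW.{u}) (a b c d e : ℕ) :
    Loc.{u} fun v => CNA_WW (v a) (v b) (v c) (v d) (v e) :=
  Loc.ren (P := fun v => (v 0).IsOrdinal ∧ (v 1).IsOrdinal ∧ (v 3).IsOrdinal ∧
    (v 4).IsOrdinal ∧ Few (v 4).rank {i | i < (v 3).rank ∧ Spl (v 0).rank (v 1).rank (v 2) i}) h
    (fun n => if n = 0 then a else if n = 1 then b else if n = 2 then c else
      if n = 3 then d else e)

/-- the statement to which elementarity is applied -/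
def CNA_RR (r : ZFSet.{u}) (v : ℕ → ZFSet.{u}) : Prop :=
  CNA_UU (v 0) r (v 1) (v 2) ∧ CNA_WW (v 0) r (v 1) (v 2) (v 3)

theorem CNA_locRR (h2 : T_LFW.{u}) (h3 : T_LUN.{u}) :
    Loc.{u} fun v => CNA_RR (v 0) (fun n => v (n + 1)) :=
  Loc.and (CNA_locUU h3 1 0 2 3) (CNA_locWW h2 1 0 2 3 4)

theorem pf_CNA (h1 : T_S1.{u}) (h2 : T_LFW.{u}) (h3 : T_LUN.{u}) : T_CNA.{u} := by
  intro δ η θ j K μ ρ F hS hdreg lam hlamK hlamlim hlamcof hunb
  have he := hS.emb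
  have hδη : δ < η := he.dlt
  have hlamη : lam < η := lt_of_le_of_lt hlamK hS.kη
  have hμη : μ < η := hS.mlt.trans hδη
  -- the ordinal ρ is small
  have hρθ : ρ ≤ Jo j K.ord := by
    by_contra hlt
    push Not at hlt
    obtain ⟨x, hx, hxy⟩ := hS.r2 _ hlt
    exact absurd hxy (not_lt.2 ((he.le_iff (hx.trans hS.kη) hS.kη).2 hx.le))
  have hρθ' : ρ < θ := lt_of_le_of_lt hρθ (he.Jo_lt hS.kη)
  -- continuity at lam
  have hcont : ∀ y < Jo j lam, ∃ ξ < lam, y < Jo j ξ := by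
    have hreg : lam.cof.IsRegular :=
      Cardinal.isRegular_cof hlamlim
    exact (HD.All.xe δ η θ j he lam hlamη lam.cof hreg hlamcof rfl).1
  have htr := (he.trl_ex (CNA_locRR h2 h3) [μ.toZFSet, F, lam.toZFSet, δ.toZFSet] (by
      simp only [List.mem_cons, List.not_mem_nil, or_false, forall_eq_or_imp, forall_eq]
      exact ⟨Gd.ord.2 hμη, hS.fη, Gd.ord.2 hlamη, Gd.ord.2 hδη⟩)).2 ?_
  · obtain ⟨r, -, ⟨-, -, -, hu⟩, ⟨-, -, -, -, hw⟩⟩ := htr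
    simp only [sv_cons_zero, sv_cons_succ, rank_toZFSet] at hu hw
    exact ⟨r.rank, hu, hw⟩
  · refine ⟨ρ.toZFSet, Gd.ord.2 hρθ', ?_⟩
    show CNA_RR ρ.toZFSet (sv [j μ.toZFSet, j F, j lam.toZFSet, j δ.toZFSet])
    rw [he.fix μ hS.mlt, he.ord hlamη, he.ord hδη]
    refine ⟨⟨ZFSet.isOrdinal_toZFSet _, ZFSet.isOrdinal_toZFSet _, ZFSet.isOrdinal_toZFSet _, ?_⟩,
      ⟨ZFSet.isOrdinal_toZFSet _, ZFSet.isOrdinal_toZFSet _, ZFSet.isOrdinal_toZFSet _,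
        ZFSet.isOrdinal_toZFSet _, ?_⟩⟩
    · simp only [sv_cons_zero, sv_cons_succ, rank_toZFSet]
      intro z hz
      obtain ⟨ξ, hξ, hzξ⟩ := hcont z hz
      obtain ⟨i0, hi0, hi0lam, hspl⟩ := hunb ξ hξ
      have hi0η : i0 < η := hi0lam.trans hlamη
      refine ⟨Jo j i0, hzξ.trans ((he.lt_iff (hξ.trans hlamη) hi0η).2 hi0),
        (he.lt_iff hi0η hlamη).2 hi0lam, ?_⟩
      exact (h1 δ η θ j K μ ρ F hS _).2 ⟨i0, hi0η, rfl, hspl⟩
    · simp only [sv_cons_zero, sv_cons_succ, rank_toZFSet]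
      refine ⟨lam, hlamη.trans he.Jo_crit, Jo j, ?_⟩
      rintro i ⟨hi, hspl⟩
      obtain ⟨i0, hi0η, rfl, -⟩ := (h1 δ η θ j K μ ρ F hS i).1 hspl
      exact ⟨i0, (he.lt_iff hi0η hlamη).1 hi, rfl⟩

end Pool.Agent.H26.PRK
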